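import Pool.Agent.H20.T4.Stm2
import Pool.Agent.H44.T4.CellDir
import Pool.Agent.H44.T4.Trans

/-!
Project TM4 (MP_b6022c_nt), row CELL: the sum over a good cell is small.
-/

namespace Pool.Agent.H9.T4

open Finset Pool.Agent.H9.TC Pool.Agent.H20.TM Pool.Agent.H20.T4 Pool.Agent.H44.T4

theorem cellGood_mono {q1 : ℕ} {q p L g g9 v1 K1 K2 M τ c kk w a V D : ℕ} {ε ε' : ℝ}
    {d e f g' : Fin q1 → ℤ} {n0 : ℤ} (h : ε ≤ ε')
    (hg : CellGood q p L g g9 v1 K1 K2 M τ c kk w a V D ε d e f g' n0) :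
    CellGood q p L g g9 v1 K1 K2 M τ c kk w a V D ε' d e f g' n0 := by
  obtain ⟨h1, h2, h3⟩ := hg
  refine ⟨fun i l hl hV => (h1 i l hl hV).trans ?_, fun i => (h2 i).trans ?_, h3.trans ?_⟩
  · exact mul_le_mul_of_nonneg_right h (by positivity)
  · exact mul_le_mul_of_nonneg_right h (by positivity)
  · exact mul_le_mul_of_nonneg_right h (by positivity)

theorem psi_split {kk : ℕ} (D : ℕ) (hs xt : Fin kk → ℕ) (η : Fin kk → Bool)
    (j : ℕ × (Fin kk × Bool → ℕ)) :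
    psi 0 (fun l => ((hs l + D * xt l : ℕ) : ℤ)) η j =
      ((∑ l, j.2 (l, η l) * hs l : ℕ) : ℤ) + D * ((∑ l, j.2 (l, η l) * xt l : ℕ) : ℤ) := by
  simp only [psi]
  push_cast
  rw [mul_zero, zero_add, mul_sum, ← sum_add_distrib]
  refine sum_congr rfl fun l _ => ?_
  ring

/-- one generic point of the box -/
theorem generic_j (hT : TRANSStmt) {q1 q c Cf kk Z w a V D M : ℕ} {ε1 δ : ℝ} (hq : q = q1 * 2 ^ kk)
    (hε1 : 0 ≤ ε1) (hw : 1 ≤ w) (hkZ : kk * 2 ^ Z ≤ 2 ^ w) (hM : M ≤ 2 ^ w)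
    (haV : 2 * a ≤ V) (hVk : V ≤ 2 * a + kk * w) {g : ℕ} (hg : g ≤ 2 * a)
    {d e f g' : Fin q1 → ℤ} (hd : ∀ i, |d i| ≤ Cf) (he : ∀ i, |e i| ≤ Cf) (hf : ∀ i, |f i| ≤ Cf)
    (hg' : ∀ i, |g' i| ≤ Cf) {n0 : ℕ}
    (hnear : ∀ i, ∀ l ≤ kk, 2 * a + l * w ≤ V →
      (cnt3 (2 ^ (400 * w + 1)) (2 ^ (18 * w + 1)) M
        (fun s x m => near (2 * a + l * w) ((2 : ℤ) ^ (2 * a + l * w - g))
          (qua c (d i) (e i) (f i) (g' i) ((n0 : ℤ) + s + D * x + 2 ^ a * m))) : ℝ)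
        ≤ ε1 * (2 ^ (400 * w) * 2 ^ (18 * w) * M))
    {hs xt : Fin kk → ℕ} (hhs : ∀ l, hs l ≤ 2 ^ (71 * w)) (hxt : ∀ l, xt l ≤ 2 ^ (17 * w))
    (hclose : ∀ l : Fin kk, Close c Cf g Z w a D (2 * a + l * w) (2 * a + (l + 1) * w) n0
      ((hs l : ℤ) + D * xt l))
    {j : ℕ × (Fin kk × Bool → ℕ)} (hj : j ∈ box kk (2 ^ Z))
    (hgen : ¬ ∃ i i' : Fin q1, ∃ η η' : Fin kk → Bool,
      (i, η) ≠ (i', η') ∧ del c (d i) (d i') (psi 0 (fun l => ((hs l + D * xt l : ℕ) : ℤ)) η j)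
        (psi 0 (fun l => ((hs l + D * xt l : ℕ) : ℤ)) η' j) = 0)
    (hcc : ∀ (ip : Fin q → Fin q1) (h t : Fin q → ℕ), (∀ i, h i ≤ 2 ^ (72 * w)) →
      (∀ i, t i ≤ 2 ^ (18 * w)) →
      (∀ i i', i ≠ i' → del c (d (ip i)) (d (ip i')) (h i + D * t i) (h i' + D * t i') ≠ 0) →
      |∑ m ∈ range M, ∑ x ∈ range (2 ^ (18 * w)), ∑ s ∈ range (2 ^ (400 * w)),
        ∏ i, TW 0 (2 * a) (qua c (d (ip i)) (e (ip i)) (f (ip i)) (g' (ip i))
          (n0 + s + D * x + 2 ^ a * m + (h i + D * t i)))| ≤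
        δ * (2 ^ (400 * w) * 2 ^ (18 * w) * M)) :
    |∑ m ∈ range M, ∑ x ∈ range (2 ^ (18 * w)), ∑ s ∈ range (2 ^ (400 * w)),
      ∏ η : Fin kk → Bool, ∏ i, TW 0 V (qua c (d i) (e i) (f i) (g' i)
        ((n0 : ℤ) + ((s + ∑ l, j.2 (l, η l) * hs l : ℕ) : ℤ)
          + D * ((x + ∑ l, j.2 (l, η l) * xt l : ℕ) : ℤ) + 2 ^ a * m))| ≤
      (δ + 2 * (q1 * 2 ^ kk * (kk + 1)) * ε1) * (2 ^ (400 * w) * 2 ^ (18 * w) * M) := by
  classical
  have h1 := hT q1 c Cf g kk Z w a V D M ε1 hε1 hw hkZ hM haV hVk hg d e f g' hd he hf hg' n0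
    hnear hs xt hhs hxt hclose j hj
  subst hq
  have hcard : Fintype.card (Fin (q1 * 2 ^ kk)) = Fintype.card (Fin q1 × (Fin kk → Bool)) := by
    simp
  let E := Fintype.equivOfCardEq hcard
  have h2 := hcc (fun k => (E k).1) (fun k => ∑ l, j.2 (l, (E k).2 l) * hs l)
    (fun k => ∑ l, j.2 (l, (E k).2 l) * xt l) ?_ ?_ ?_
  · have h3 : ∀ m x s : ℕ, (∏ k : Fin (q1 * 2 ^ kk), TW 0 (2 * a)
        (qua c (d (E k).1) (e (E k).1) (f (E k).1) (g' (E k).1)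
          ((n0 : ℤ) + s + D * x + 2 ^ a * m + (((∑ l, j.2 (l, (E k).2 l) * hs l : ℕ) : ℤ)
            + D * ((∑ l, j.2 (l, (E k).2 l) * xt l : ℕ) : ℤ))))) =
        ∏ η : Fin kk → Bool, ∏ i, TW 0 (2 * a) (qua c (d i) (e i) (f i) (g' i)
        ((n0 : ℤ) + s + D * x + 2 ^ a * m + (((∑ l, j.2 (l, η l) * hs l : ℕ) : ℤ)
          + D * ((∑ l, j.2 (l, η l) * xt l : ℕ) : ℤ)))) := by
      intro m x s
      rw [prod_comm]
      rw [← Fintype.prod_prod_type' (f := fun (i : Fin q1) (η : Fin kk → Bool) =>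
        TW 0 (2 * a) (qua c (d i) (e i) (f i) (g' i)
        ((n0 : ℤ) + s + D * x + 2 ^ a * m + (((∑ l, j.2 (l, η l) * hs l : ℕ) : ℤ)
          + D * ((∑ l, j.2 (l, η l) * xt l : ℕ) : ℤ)))))]
      exact Equiv.prod_comp E (fun y : Fin q1 × (Fin kk → Bool) =>
        TW 0 (2 * a) (qua c (d y.1) (e y.1) (f y.1) (g' y.1)
        ((n0 : ℤ) + s + D * x + 2 ^ a * m + (((∑ l, j.2 (l, y.2 l) * hs l : ℕ) : ℤ)
          + D * ((∑ l, j.2 (l, y.2 l) * xt l : ℕ) : ℤ)))))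
    simp only [h3] at h2
    have h4 : (δ + 2 * (q1 * 2 ^ kk * (kk + 1)) * ε1) * (2 ^ (400 * w) * 2 ^ (18 * w) * M) =
        δ * (2 ^ (400 * w) * 2 ^ (18 * w) * M) +
        2 * (q1 * 2 ^ kk * (kk + 1)) * ε1 * (2 ^ (400 * w) * 2 ^ (18 * w) * M) := by ring
    rw [h4]
    exact h1.trans (by gcongr)
  · intro k
    refine (box_sum_lt hj hkZ (E k).2 hs hhs).trans (le_of_eq ?_)
    congr 1
    ring
  · intro k
    refine (box_sum_lt hj hkZ (E k).2 xt hxt).trans (le_of_eq ?_)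
    congr 1
    ring
  · intro k k' hkk' h0
    refine hgen ⟨(E k).1, (E k').1, (E k).2, (E k').2, ?_, ?_⟩
    · intro heq
      apply hkk'
      apply E.injective
      exact heq
    · rw [psi_split, psi_split]
      exact h0

theorem cell (hVC : VCStmt) (hJG : JGStmt) (hDI : DIRSStmt) (hT : TRANSStmt) (hCC : CCStmt) :
    CELLStmt := by
  classical
  intro q1 c Cf kk Kn ε hq1 hc hkk hε
  have hq : 1 ≤ q1 * 2 ^ kk := Nat.mul_pos hq1 (by positivity)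
  have hq0 : (0 : ℝ) < (q1 * 2 ^ kk : ℕ) := by exact_mod_cast hq
  set δ : ℝ := ε ^ (2 ^ kk) / 4 with hδ
  have hδ0 : 0 < δ := by positivity
  obtain ⟨Z, hZ⟩ : ∃ Z : ℕ, (((q1 * 2 ^ kk : ℕ) : ℝ)) ^ 2 / δ < 2 ^ Z :=
    pow_unbounded_of_one_lt _ (by norm_num)
  obtain ⟨ε2, hε2, hcc0⟩ := hCC q1 (q1 * 2 ^ kk) c Cf Kn δ hq hc hδ0
  set R : ℝ := 2 * (q1 * 2 ^ kk * (kk + 1)) with hR
  have hR0 : 0 < R := by
    have : (0 : ℝ) < q1 := by exact_mod_cast hq1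
    positivity
  refine ⟨min ε2 (δ / R), lt_min hε2 (by positivity), fun g1 => ?_⟩
  obtain ⟨g, L, g9, w1, hg1, hL, hcc1⟩ := hcc0 g1
  obtain ⟨w2, hdi⟩ := hDI c Cf g Z kk hc
  obtain ⟨w3, hw3⟩ : ∃ w3 : ℕ, (100 * 4 ^ kk * (kk * 2 ^ Z) / δ : ℝ) + (kk * 2 ^ Z) < 2 ^ w3 :=
    pow_unbounded_of_one_lt _ (by norm_num)
  refine ⟨g, L, g9, max (max w1 w2) (max w3 (g + 1)), hg1, hL, ?_⟩
  intro w hw ν a ED D p v1 K1 K2 M τ C' hν hED hED2 hD1 hD2 hV1 hV2 hwp hK1 hK2 hv1a hv1b hEDv hsum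
    hτ1 hτ2 hM1 hM2 d e f g' hinj hd he hf hg' n0 hn0 hDc hgood
  have hww1 : w1 ≤ w := le_trans (le_trans (le_max_left _ _) (le_max_left _ _)) hw
  have hww2 : w2 ≤ w := le_trans (le_trans (le_max_right _ _) (le_max_left _ _)) hw
  have hww3 : w3 ≤ w := le_trans (le_trans (le_max_left _ _) (le_max_right _ _)) hw
  have hwg : g + 1 ≤ w := le_trans (le_trans (le_max_right _ _) (le_max_right _ _)) hw
  have h2w : (2 : ℝ) ^ w3 ≤ 2 ^ w := pow_le_pow_right₀ (by norm_num) hww3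
  have hpos1 : (0 : ℝ) ≤ 100 * 4 ^ kk * (kk * 2 ^ Z) / δ := by positivity
  have hpos2 : (0 : ℝ) ≤ (kk : ℝ) * 2 ^ Z := by positivity
  have hkZ : kk * 2 ^ Z ≤ 2 ^ w := by
    have : ((kk * 2 ^ Z : ℕ) : ℝ) ≤ ((2 ^ w : ℕ) : ℝ) := by push_cast; linarith
    exact_mod_cast this
  have hρ : 100 * 4 ^ kk * ((kk * 2 ^ Z : ℝ) / 2 ^ w) ≤ δ := by
    have h1 : (100 * 4 ^ kk * (kk * 2 ^ Z) / δ : ℝ) ≤ 2 ^ w := by linarith
    rw [div_le_iff₀ hδ0] at h1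
    have h2 : (100 : ℝ) * 4 ^ kk * ((kk * 2 ^ Z : ℝ) / 2 ^ w)
        = (100 * 4 ^ kk * (kk * 2 ^ Z)) / 2 ^ w := by ring
    rw [h2, div_le_iff₀ (by positivity)]
    linarith
  have hM0 : 1 ≤ M := le_trans Nat.one_le_two_pow hM1
  have hnν : n0 < 2 ^ ν := lt_of_lt_of_le hn0 (Nat.pow_le_pow_right (by norm_num) (by omega))
  obtain ⟨hs, xt, hhs, hxt, hpos, hclose⟩ := hdi w hww2 ν a ED D hν hED hED2 hD1 hD2 n0 hnν hDc
  have hεcc : CellGood (q1 * 2 ^ kk) p L g g9 v1 K1 K2 M τ c kk w a (3 * ν + C') D ε2 d e f g' n0 :=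
    cellGood_mono (min_le_left _ _) hgood
  have hcc2 := hcc1 w hww1 kk (3 * ν + C') ν a ED D p v1 K1 K2 M τ hν hED hED2 hD1 hD2 hwp hK1 hK2
    hv1a hv1b hEDv hsum hτ1 hτ2 hM1 hM2 d e f g' hd n0 hεcc
  set F : ℕ → ℕ → ℕ → ℝ := fun s x m => ∏ i, TW 0 (3 * ν + C') (qua c (d i) (e i) (f i) (g' i)
    ((n0 : ℤ) + s + D * x + 2 ^ a * m)) with hF
  have hF1 : ∀ s x m, |F s x m| ≤ 1 := by
    intro s x m
    simp only [hF]
    rw [abs_prod]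
    exact le_of_eq (prod_eq_one fun i _ => abs_TW _ _ _)
  set A : ℕ := 2 ^ (400 * w) with hA
  set B : ℕ := 2 ^ (18 * w) with hB
  have hAr : (A : ℝ) = 2 ^ (400 * w) := by rw [hA]; push_cast; ring
  have hBr : (B : ℝ) = 2 ^ (18 * w) := by rw [hB]; push_cast; ring
  have hA0 : (0 : ℝ) < A := by rw [hAr]; positivity
  have hB0 : (0 : ℝ) < B := by rw [hBr]; positivity
  have hMr : (0 : ℝ) < M := by exact_mod_cast hM0
  have hABM : (0 : ℝ) < (A : ℝ) * B * M := by positivity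
  have hvc := hVC kk (2 ^ Z) A B M F hs xt ((kk * 2 ^ Z : ℝ) / 2 ^ w) Nat.one_le_two_pow
    Nat.one_le_two_pow Nat.one_le_two_pow hM0 hF1 ?_ ?_
  rotate_left
  · have h1 : ((∑ l, hs l : ℕ) : ℝ) ≤ kk * 2 ^ (71 * w) := by
      have : ∑ l, hs l ≤ ∑ _l : Fin kk, 2 ^ (71 * w) := sum_le_sum fun l _ => hhs l
      rw [sum_const, card_univ, Fintype.card_fin, smul_eq_mul] at this
      exact_mod_cast this
    have h2 : (2 : ℝ) ^ (71 * w) * 2 ^ w ≤ A := by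
      rw [hAr, ← pow_add]
      exact pow_le_pow_right₀ (by norm_num) (by omega)
    rw [Nat.cast_mul]
    push_cast at h1 ⊢
    rw [div_mul_eq_mul_div, le_div_iff₀ (by positivity)]
    have h3 : (2 : ℝ) ^ Z * (∑ l, (hs l : ℝ)) * 2 ^ w ≤ 2 ^ Z * (kk * 2 ^ (71 * w)) * 2 ^ w := by
      gcongr
    have h4 : (2 : ℝ) ^ Z * (kk * 2 ^ (71 * w)) * 2 ^ w = kk * 2 ^ Z * (2 ^ (71 * w) * 2 ^ w) := by
      ring
    rw [h4] at h3
    exact h3.trans (by gcongr)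
  · have h1 : ((∑ l, xt l : ℕ) : ℝ) ≤ kk * 2 ^ (17 * w) := by
      have : ∑ l, xt l ≤ ∑ _l : Fin kk, 2 ^ (17 * w) := sum_le_sum fun l _ => hxt l
      rw [sum_const, card_univ, Fintype.card_fin, smul_eq_mul] at this
      exact_mod_cast this
    have h2 : (2 : ℝ) ^ (17 * w) * 2 ^ w ≤ B := by
      rw [hBr, ← pow_add]
      exact pow_le_pow_right₀ (by norm_num) (by omega)
    rw [Nat.cast_mul]
    push_cast at h1 ⊢
    rw [div_mul_eq_mul_div, le_div_iff₀ (by positivity)]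
    have h3 : (2 : ℝ) ^ Z * (∑ l, (xt l : ℝ)) * 2 ^ w ≤ 2 ^ Z * (kk * 2 ^ (17 * w)) * 2 ^ w := by
      gcongr
    have h4 : (2 : ℝ) ^ Z * (kk * 2 ^ (17 * w)) * 2 ^ w = kk * 2 ^ Z * (2 ^ (17 * w) * 2 ^ w) := by
      ring
    rw [h4] at h3
    exact h3.trans (by gcongr)
  -- the sum over the box
  set Sj : ℕ × (Fin kk × Bool → ℕ) → ℝ := fun j => ∑ m ∈ range M, ∑ x ∈ range B, ∑ s ∈ range A,
    ∏ η : Fin kk → Bool, F (s + ∑ l, j.2 (l, η l) * hs l) (x + ∑ l, j.2 (l, η l) * xt l) m with hSj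
  have htriv : ∀ j, |Sj j| ≤ (A : ℝ) * B * M := by
    intro j
    have h1 : ∀ m x s : ℕ, |∏ η : Fin kk → Bool, F (s + ∑ l, j.2 (l, η l) * hs l)
        (x + ∑ l, j.2 (l, η l) * xt l) m| ≤ 1 := by
      intro m x s
      rw [abs_prod]
      exact prod_le_one (fun _ _ => abs_nonneg _) (fun _ _ => hF1 _ _ _)
    calc |Sj j| ≤ ∑ m ∈ range M, ∑ x ∈ range B, ∑ s ∈ range A, (1 : ℝ) := by
          refine (abs_sum_le_sum_abs _ _).trans (sum_le_sum fun m _ => ?_)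
          refine (abs_sum_le_sum_abs _ _).trans (sum_le_sum fun x _ => ?_)
          exact (abs_sum_le_sum_abs _ _).trans (sum_le_sum fun s _ => h1 m x s)
      _ = (A : ℝ) * B * M := by simp; ring
  set Bad : Finset (ℕ × (Fin kk × Bool → ℕ)) := (box kk (2 ^ Z)).filter
    (fun j => ∃ i i' : Fin q1, ∃ η η' : Fin kk → Bool,
      (i, η) ≠ (i', η') ∧ del c (d i) (d i') (psi 0 (fun l => ((hs l + D * xt l : ℕ) : ℤ)) η j)
        (psi 0 (fun l => ((hs l + D * xt l : ℕ) : ℤ)) η' j) = 0) with hBad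
  have hjg := hJG kk q1 c (2 ^ Z) d (fun l => hs l + D * xt l) hc Nat.one_le_two_pow hinj hpos
  have hgenb : ∀ j ∈ box kk (2 ^ Z), j ∉ Bad → |Sj j| ≤ 2 * δ * ((A : ℝ) * B * M) := by
    intro j hj hjB
    have hgen : ¬ ∃ i i' : Fin q1, ∃ η η' : Fin kk → Bool,
      (i, η) ≠ (i', η') ∧ del c (d i) (d i') (psi 0 (fun l => ((hs l + D * xt l : ℕ) : ℤ)) η j)
        (psi 0 (fun l => ((hs l + D * xt l : ℕ) : ℤ)) η' j) = 0 := by
      intro hx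
      exact hjB (mem_filter.2 ⟨hj, hx⟩)
    have h1 := generic_j hT (q := q1 * 2 ^ kk) (δ := δ) rfl (le_min hε2.le (by positivity)) (by omega) hkZ
      hM2 hV2 hV1 (by omega) hd he hf hg' hgood.1 hhs hxt hclose hj hgen
      (fun ip h t h1 h2 h3 => hcc2 ip h t h1 h2 h3)
    have h2 : (δ + 2 * (q1 * 2 ^ kk * (kk + 1)) * min ε2 (δ / R)) ≤ 2 * δ := by
      have h3 : R * min ε2 (δ / R) ≤ R * (δ / R) :=
        mul_le_mul_of_nonneg_left (min_le_right _ _) hR0.le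
      have h4 : R * (δ / R) = δ := by field_simp
      rw [← hR]
      linarith
    have h5 : |Sj j| ≤ (δ + 2 * (q1 * 2 ^ kk * (kk + 1)) * min ε2 (δ / R)) *
        (2 ^ (400 * w) * 2 ^ (18 * w) * M) := h1
    refine h5.trans ?_
    rw [hAr, hBr]
    exact mul_le_mul_of_nonneg_right h2 (by positivity)
  have hboxpos : (0 : ℝ) < ((box kk (2 ^ Z)).card : ℝ) := by
    have : (box kk (2 ^ Z)).Nonempty := by
      refine ⟨(0, fun _ => 0), ?_⟩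
      simp [Pool.Agent.H9.TC.box]
    exact_mod_cast this.card_pos
  have hBadc : (Bad.card : ℝ) ≤ δ * ((box kk (2 ^ Z)).card : ℝ) := by
    have h1 : (Bad.card : ℝ) * ((2 ^ Z : ℕ) : ℝ) ≤ (q1 * 2 ^ kk) ^ 2 * ((box kk (2 ^ Z)).card : ℝ) := by
      refine le_trans (le_of_eq ?_) hjg
      congr 3
    have h2 : (((q1 * 2 ^ kk : ℕ) : ℝ)) ^ 2 ≤ δ * 2 ^ Z := by
      rw [div_lt_iff₀ hδ0] at hZ
      linarith
    push_cast at h1 h2
    have h3 : (Bad.card : ℝ) * 2 ^ Z ≤ (δ * 2 ^ Z) * ((box kk (2 ^ Z)).card : ℝ) :=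
      h1.trans (mul_le_mul_of_nonneg_right h2 hboxpos.le)
    have h4 : (0 : ℝ) < 2 ^ Z := by positivity
    nlinarith
  have hsumj : |∑ j ∈ box kk (2 ^ Z), Sj j| ≤ 3 * δ * (((A : ℝ) * B * M) * (box kk (2 ^ Z)).card) := by
    calc |∑ j ∈ box kk (2 ^ Z), Sj j| ≤ ∑ j ∈ box kk (2 ^ Z), |Sj j| := abs_sum_le_sum_abs _ _
      _ ≤ ∑ j ∈ box kk (2 ^ Z), ((if j ∈ Bad then (A : ℝ) * B * M else 0)
            + 2 * δ * ((A : ℝ) * B * M)) := by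
          refine sum_le_sum fun j hj => ?_
          by_cases hb : j ∈ Bad
          · rw [if_pos hb]
            have := htriv j
            have h0 : 0 ≤ 2 * δ * ((A : ℝ) * B * M) := by positivity
            linarith
          · rw [if_neg hb]
            have := hgenb j hj hb
            linarith
      _ = Bad.card * ((A : ℝ) * B * M) + (box kk (2 ^ Z)).card * (2 * δ * ((A : ℝ) * B * M)) := by
          rw [sum_add_distrib, sum_const, nsmul_eq_mul, ← sum_filter, sum_const, nsmul_eq_mul]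
          congr 2
          have : (box kk (2 ^ Z)).filter (fun j => j ∈ Bad) = Bad := by
            ext j
            simp only [mem_filter, hBad]
            tauto
          rw [this]
      _ ≤ (δ * ((box kk (2 ^ Z)).card : ℝ)) * ((A : ℝ) * B * M)
            + (box kk (2 ^ Z)).card * (2 * δ * ((A : ℝ) * B * M)) := by gcongr
      _ = 3 * δ * (((A : ℝ) * B * M) * (box kk (2 ^ Z)).card) := by ring
  have hfin : |(∑ m ∈ range M, ∑ x ∈ range B, ∑ s ∈ range A, F s x m) / (A * B * M)| ^ (2 ^ kk)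
      ≤ ε ^ (2 ^ kk) := by
    refine hvc.trans ?_
    have h1 : |(∑ j ∈ box kk (2 ^ Z), Sj j) / ((A : ℝ) * B * M * (box kk (2 ^ Z)).card)| ≤ 3 * δ := by
      rw [abs_div, abs_of_pos (show (0 : ℝ) < (A : ℝ) * B * M * (box kk (2 ^ Z)).card by positivity),
        div_le_iff₀ (by positivity)]
      exact hsumj
    have h2 : ε ^ (2 ^ kk) = 3 * δ + δ := by rw [hδ]; ring
    rw [h2]
    exact add_le_add h1 hρ
  have h3 := (pow_le_pow_iff_left₀ (abs_nonneg _) hε.le (by positivity)).1 hfin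
  rw [abs_div, abs_of_pos hABM, div_le_iff₀ hABM] at h3
  rw [hAr, hBr] at h3
  exact h3

end Pool.Agent.H9.T4
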