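import Pool.Agent.H20.T4.Stm2

/-!
Project TM4, row CELL: statement of the transfer of the digits `[0, V)` to `[0, 2a)` for one `j`.
-/

namespace Pool.Agent.H9.T4

open Finset Pool.Agent.H9.TC Pool.Agent.H20.T4

/-- (CB) the digits `[2a, V)` cancel for one point `j` of the box, up to the near points. -/
def CBStmt : Prop :=
  ∀ (q1 q c Cf kk Z g : ℕ), 1 ≤ c → ∃ w0 : ℕ, ∀ w ≥ w0, ∀ a V D p L g9 v1 K1 K2 M τ : ℕ,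
    2 * a ≤ V → V ≤ 2 * a + kk * w → g ≤ 2 * a → M ≤ 2 ^ w →
    ∀ (ε1 : ℝ) (d e f g' : Fin q1 → ℤ), (∀ i, |d i| ≤ Cf) → (∀ i, |e i| ≤ Cf) →
    (∀ i, |f i| ≤ Cf) → (∀ i, |g' i| ≤ Cf) → ∀ n0 : ℕ,
    CellGood q p L g g9 v1 K1 K2 M τ c kk w a V D ε1 d e f g' n0 →
    ∀ hs xt : Fin kk → ℕ, (∀ l, hs l ≤ 2 ^ (71 * w)) → (∀ l, xt l ≤ 2 ^ (17 * w)) →
    (∀ l : Fin kk, Close c Cf g Z w a D (2 * a + l * w) (2 * a + (l + 1) * w) n0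
      ((hs l : ℤ) + D * xt l)) →
    ∀ j ∈ box kk (2 ^ Z),
    |∑ m ∈ range M, ∑ x ∈ range (2 ^ (18 * w)), ∑ s ∈ range (2 ^ (400 * w)),
      ∏ η : Fin kk → Bool, ∏ i, TW 0 V (qua c (d i) (e i) (f i) (g' i)
        (n0 + s + D * x + 2 ^ a * m + psi 0 (fun l => (hs l : ℤ) + D * xt l) η j))| ≤
    |∑ m ∈ range M, ∑ x ∈ range (2 ^ (18 * w)), ∑ s ∈ range (2 ^ (400 * w)),
      ∏ η : Fin kk → Bool, ∏ i, TW 0 (2 * a) (qua c (d i) (e i) (f i) (g' i)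
        (n0 + s + D * x + 2 ^ a * m + psi 0 (fun l => (hs l : ℤ) + D * xt l) η j))| +
    2 * (q1 * 2 ^ kk) * (kk + 1) * ε1 * (2 ^ (400 * w) * 2 ^ (18 * w) * M)

end Pool.Agent.H9.T4
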